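import Pool.Agent.H8.TX.Targets
import Pool.Agent.H14.TD.EXT

/-!
# Existence of independent linear combinations (EXN) (helper68, board tx_modules)

Adapted from `Pool.Agent.H14.TD.pf_EXT` (helper14).
-/

set_option autoImplicit false

open MvPolynomial
open Pool.Agent.H12.ZD (pmap)
open Pool.Agent.H18.HIT Pool.Agent.H18.HX Pool.Agent.H18.VZ
open Pool.Agent.H8.ZA (HFam Const NA)
open Pool.Agent.H8.TD (lc dg Wsp Cop dh)
open Pool.Agent.H8.TX
open Pool.Agent.H14.TD (alg_trans fin_of_alg lc_single)

namespace Pool.Agent.H68.TX

theorem pf_EXN : T_EXN := by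
  intro k K _ _ _ a b A B g htr hfg hg hA hB
  have h0 : AlgebraicIndepOn k (id : K → K) ({g} : Set K) := by
    have h1 := (algebraicIndependent_iff_transcendental (R := k) (x := g)).mpr hg
    have h2 := h1.to_subtype_range
    have h3 : Set.range ![g] = ({g} : Set K) := by
      rw [Matrix.range_cons, Matrix.range_empty, Set.union_empty]
    rw [h3] at h2
    exact h2
  obtain ⟨i, hi⟩ : ∃ i, Transcendental (Algebra.adjoin k ({g} : Set K)) (B i) := by
    by_contra hcon
    push Not at hcon
    have h1 := alg_trans ({g} : Set K) B hB (fun i => by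
      have := hcon i
      unfold Transcendental at this
      push Not at this
      exact this)
    have h2 := Algebra.IsAlgebraic.trdeg_le_cardinalMk k ({g} : Set K)
    rw [htr, Cardinal.mk_singleton] at h2
    exact absurd h2 (by norm_num)
  have h1 : AlgebraicIndepOn k (id : K → K) (insert (B i) ({g} : Set K)) := by
    refine h0.insert ?_
    rw [Set.image_id]
    exact hi
  obtain ⟨j, hj⟩ : ∃ j, Transcendental (Algebra.adjoin k (insert (B i) ({g} : Set K))) (A j) := by
    by_contra hcon
    push Not at hcon
    have h1 := alg_trans (insert (B i) ({g} : Set K)) A hA (fun i => by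
      have := hcon i
      unfold Transcendental at this
      push Not at this
      exact this)
    have h2 := Algebra.IsAlgebraic.trdeg_le_cardinalMk k (insert (B i) ({g} : Set K))
    have h3 := h2.trans Cardinal.mk_insert_le
    rw [htr, Cardinal.mk_singleton] at h3
    have h4 : ((3 : ℕ) : Cardinal) ≤ ((2 : ℕ) : Cardinal) := by
      push_cast
      calc (3 : Cardinal) ≤ 1 + 1 := h3
        _ = 2 := one_add_one_eq_two
    have h5 : (3 : ℕ) ≤ 2 := by exact_mod_cast h4
    omega
  have h2 : AlgebraicIndepOn k (id : K → K) (insert (A j) (insert (B i) ({g} : Set K))) := by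
    refine h1.insert ?_
    rw [Set.image_id]
    exact hj
  have hBg : B i ∉ ({g} : Set K) := by
    intro h
    exact hi (isAlgebraic_algebraMap
      (⟨B i, Algebra.subset_adjoin h⟩ : Algebra.adjoin k ({g} : Set K)))
  have hAg : A j ∉ (insert (B i) ({g} : Set K)) := by
    intro h
    exact hj (isAlgebraic_algebraMap
      (⟨A j, Algebra.subset_adjoin h⟩ : Algebra.adjoin k (insert (B i) ({g} : Set K))))
  have hcard : Algebra.trdeg k K ≤
      Cardinal.mk (insert (A j) (insert (B i) ({g} : Set K)) : Set K) := by
    rw [Cardinal.mk_insert hAg, Cardinal.mk_insert hBg, Cardinal.mk_singleton, htr]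
    norm_num
  have hfinS : Finite (insert (A j) (insert (B i) ({g} : Set K)) : Set K) :=
    (((Set.finite_singleton g).insert (B i)).insert (A j))
  have hb := h2.isTranscendenceBasis_of_trdeg_le_of_finite hcard
  have halg := hb.isAlgebraic
  have hrange : Set.range (fun x : (insert (A j) (insert (B i) ({g} : Set K)) : Set K) =>
      id (x : K)) = insert (A j) (insert (B i) ({g} : Set K)) := Subtype.range_coe
  rw [hrange] at halg
  have hfd := fin_of_alg hfg _ halg
  refine ⟨Pi.single i 1, Pi.single j 1, ?_⟩
  rw [lc_single, lc_single]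
  have hset : ({g, B i, A j} : Set K) = insert (A j) (insert (B i) ({g} : Set K)) := by
    ext x
    simp only [Set.mem_insert_iff, Set.mem_singleton_iff]
    tauto
  rw [hset]
  unfold dg
  exact Module.finrank_pos

end Pool.Agent.H68.TX
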